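import Pool.Agent.T2h61.GT.Tree2
import Pool.Agent.N509.TK.Loc

/-!
# Groups of matrices over a discretely valued field whose bounded subsets are detected
-/

set_option autoImplicit false

namespace Pool.Agent.T2h61.GT

open WithZero Matrix SimpleGraph
open Pool.Agent.Y110.FJ (ClosedE)

variable {K : Type} [Field K] {v : Valuation K ℤᵐ⁰} {C : ∀ (G : Type) [Group G], Prop}

/-- **Bounded detection.** -/
theorem crit (hC : ClosedE C) (hπ : ∃ π : K, v π = exp (-1 : ℤ)) {H : Type} [Group H]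
    (ρ : H →* GL (Fin 2) K) (hdet : ∀ h, v (ρ h : Matrix (Fin 2) (Fin 2) K).det = 1)
    (hb : ∀ n : ℤ, ∃ (P : Type) (_ : Group P) (f : H →* P), C P ∧
      ∀ h : H, (∀ i j, v ((ρ h : Matrix (Fin 2) (Fin 2) K) i j) ≤ exp n) → f h = 1 → h = 1) : C H := by
  let act : MulAction H (Vx v) := MulAction.compHom (Vx v) ρ
  have hsm : ∀ (h : H) (x : Vx v), h • x = ρ h • x := fun _ _ => rfl
  have key : ∀ x : Vx v, ∃ (P : Type) (_ : Group P) (f : H →* P), C P ∧
      ∀ h : H, h • x = x → f h = 1 → h = 1 := by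
    intro x
    induction x using QuotientGroup.induction_on with
    | H g =>
    obtain ⟨P, hP, f, h1, h2⟩ := hb (log (mg v g * mg v g⁻¹))
    refine ⟨P, hP, f, h1, fun h hh hf => h2 h (fun i j => ?_) hf⟩
    rw [hsm] at hh
    have h3 : g⁻¹ * (ρ h * g) ∈ SS v := QuotientGroup.eq.1 hh.symm
    rw [← mul_assoc] at h3
    have h4 : dv v (g⁻¹ * ρ h * g) = 1 := by
      have h5 : dv v (ρ h) = 1 := hdet h
      rw [dv_mul, dv_mul, h5, mul_one, dv_inv, inv_mul_cancel₀ (dv_ne g)]
    have h5 : mg v (g⁻¹ * ρ h * g) = 1 := by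
      have h6 := mem_SS.1 h3
      rw [h4] at h6
      exact (pow_eq_one_iff.1 h6).resolve_right two_ne_zero
    have h6 : mg v (ρ h) ≤ mg v g * mg v g⁻¹ := by
      have e : ρ h = g * (g⁻¹ * ρ h * g) * g⁻¹ := by group
      calc mg v (ρ h) = mg v (g * (g⁻¹ * ρ h * g) * g⁻¹) := by rw [← e]
        _ ≤ mg v g * mg v (g⁻¹ * ρ h * g) * mg v g⁻¹ :=
          (mg_mul _ _).trans (mul_le_mul' (mg_mul _ _) le_rfl)
        _ = _ := by rw [h5, mul_one]
    rw [exp_log (mul_ne_zero (mg_ne g) (mg_ne g⁻¹))]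
    exact (le_mx _ i j).trans h6
  refine Pool.Agent.N509.TK.edges (G := H) (V := Vx v) (T := Tr v) hC (isTree hπ)
    (fun h x y hxy => adj_smul (ρ h) x y hxy) (fun x => ?_) (fun x y _ => ?_)
  · obtain ⟨P, _, f, h1, h2⟩ := key x
    refine hC.base.of_injective _ _ (f.comp (Subgroup.subtype (MulAction.stabilizer H x))) ?_ h1
    rw [injective_iff_map_eq_one]
    rintro ⟨h, hh⟩ h3
    exact Subtype.ext (h2 h hh h3)
  · obtain ⟨P, hP, f, h1, h2⟩ := key x
    exact ⟨P, hP, f, h1, fun h hx _ hf => h2 h hx hf⟩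

/-- finite powers -/
theorem C_pi (hC : ClosedE C) {G : Type} [Group G] (h : C G) (n : ℕ) : C (Fin n → G) := by
  induction n with
  | zero =>
    refine hC.base.of_injective _ _ (1 : (Fin 0 → G) →* G) ?_ h
    intro a b _
    exact Subsingleton.elim _ _
  | succ n ih =>
    refine hC.base.of_injective _ _
      ({ toFun := fun f => (fun i => f i.castSucc, f (Fin.last n))
         map_one' := rfl
         map_mul' := fun _ _ => rfl } : (Fin (n + 1) → G) →* ((Fin n → G) × G)) ?_
      (hC.base.prod _ _ ih h)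
    intro a b hab
    have h1 : (fun i : Fin n => a i.castSucc) = fun i => b i.castSucc := congrArg Prod.fst hab
    have h2 : a (Fin.last n) = b (Fin.last n) := congrArg Prod.snd hab
    funext i
    refine Fin.lastCases h2 (fun i => ?_) i
    exact congrFun h1 i

/-- finite groups -/
theorem C_finite (hC : ClosedE C) (G : Type) [Group G] [Finite G] : C G := by
  refine hC.base.finiteIndex G ⊥ inferInstance ?_
  refine hC.base.of_injective _ _ (1 : (⊥ : Subgroup G) →* Multiplicative ℤ) ?_ hC.base.int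
  intro a b _
  exact Subsingleton.elim _ _

end Pool.Agent.T2h61.GT
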