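import Pool.Agent.T2h61.GT.Poly
import Pool.Agent.N509.TK.Fin
import Pool.Agent.R941.FJ.Hyper

/-!
# Extensions with abelian kernel, and quotients of graded rings
-/

set_option autoImplicit false

namespace Pool.Agent.T2h61.GT

open Matrix
open scoped commutatorElement
open Pool.Agent.Y110.FJ (ClosedE)

variable {C : ∀ (G : Type) [Group G], Prop}

/-- extensions with abelian kernel -/
theorem C_abext (hC : ClosedE C) (hM : ∀ (G : Type) [Group G], derivedSeries G 2 = ⊥ → C G)
    {G Q : Type} [Group G] [Group Q] (π : G →* Q) (hQ : C Q)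
    (hab : ∀ x y, π x = 1 → π y = 1 → x * y = y * x) : C G := by
  refine Pool.Agent.Y529.FJ.t_ext C hC G π.ker ?_ ?_ ?_
  · refine hM _ (Pool.Agent.N509.TK.metab (⊤ : Subgroup π.ker) ?_ fun _ _ => Subgroup.mem_top _)
    rintro ⟨x, hx⟩ - ⟨y, hy⟩ -
    exact Subtype.ext (hab x y hx hy)
  · exact Pool.Agent.R941.FJ.C_equiv hC.base (QuotientGroup.quotientKerEquivRange π)
      (hC.base.of_injective _ _ (Subgroup.subtype π.range) (Subgroup.subtype_injective _) hQ)
  · intro g _
    refine hM _ (Pool.Agent.N509.TK.metab (π.ker.subgroupOf (π.ker ⊔ Subgroup.zpowers g)) ?_ ?_)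
    · rintro ⟨x, hx'⟩ hx ⟨y, hy'⟩ hy
      exact Subtype.ext (hab x y hx hy)
    · rintro ⟨x, hx⟩ ⟨y, hy⟩
      rw [Pool.Agent.R941.FJ.mem_sup_normal] at hx hy
      obtain ⟨a, ha, b, ⟨i, rfl⟩, rfl⟩ := hx
      obtain ⟨c, hc, d, ⟨j, rfl⟩, rfl⟩ := hy
      rw [Subgroup.mem_subgroupOf]
      have ha' : π a = 1 := ha
      have hc' : π c = 1 := hc
      change π ⁅a * g ^ i, c * g ^ j⁆ = 1
      rw [map_commutatorElement, map_mul, map_mul, ha', hc', one_mul, one_mul]
      rw [commutatorElement_eq_one_iff_mul_comm, ← map_mul, ← map_mul, ← _root_.zpow_add, ← _root_.zpow_add, add_comm]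

/-- ring homomorphisms whose kernel has square zero -/
theorem C_sqext (hC : ClosedE C) (hM : ∀ (G : Type) [Group G], derivedSeries G 2 = ⊥ → C G)
    {R S : Type} [CommRing R] [CommRing S] (ψ : R →+* S) (hS : C (GL (Fin 2) S))
    (hψ : ∀ a b, ψ a = 0 → ψ b = 0 → a * b = 0) : C (GL (Fin 2) R) := by
  refine C_abext hC hM (GeneralLinearGroup.map (n := Fin 2) ψ) hS fun x y hx hy => ?_
  have key : ∀ x y : GL (Fin 2) R, GeneralLinearGroup.map ψ x = 1 → GeneralLinearGroup.map ψ y = 1 →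
      ((x : Matrix (Fin 2) (Fin 2) R) - 1) * ((y : Matrix (Fin 2) (Fin 2) R) - 1) = 0 := by
    intro x y hx hy
    ext i j
    rw [Matrix.mul_apply]
    refine Finset.sum_eq_zero fun l _ => ?_
    exact hψ _ _ (map_eq_one ψ hx i l) (map_eq_one ψ hy l j)
  apply Units.ext
  rw [Units.val_mul, Units.val_mul]
  have h1 := key x y hx hy
  have h2 := key y x hy hx
  have e1 : (x : Matrix (Fin 2) (Fin 2) R) * y = x + y - 1 := by
    have : (x : Matrix (Fin 2) (Fin 2) R) * y = ((x : Matrix (Fin 2) (Fin 2) R) - 1) * (y - 1) + (x + y - 1) := by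
      noncomm_ring
    rw [this, h1, zero_add]
  have e2 : (y : Matrix (Fin 2) (Fin 2) R) * x = x + y - 1 := by
    have : (y : Matrix (Fin 2) (Fin 2) R) * x = ((y : Matrix (Fin 2) (Fin 2) R) - 1) * (x - 1) + (x + y - 1) := by
      noncomm_ring
    rw [this, h2, zero_add]
  rw [e1, e2]

section graded

variable {A : Type} [CommRing A] (𝒜 : ℕ → AddSubgroup A) [GradedRing 𝒜]

/-- the homomorphism to the polynomial ring -/
noncomputable def gh : A →+* Polynomial A :=
  (DirectSum.toSemiring (fun i => ((Polynomial.monomial i).toAddMonoidHom.comp (𝒜 i).subtype :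
      𝒜 i →+ Polynomial A))
    (by
      show Polynomial.monomial 0 (1 : A) = 1
      rfl)
    (by
      intro i j a b
      show Polynomial.monomial (i + j) ((a : A) * b) = Polynomial.monomial i (a : A) * Polynomial.monomial j (b : A)
      rw [Polynomial.monomial_mul_monomial])).comp
    (DirectSum.decomposeRingEquiv 𝒜 : A →+* DirectSum ℕ fun i => 𝒜 i)

theorem gh_of {i : ℕ} (a : A) (ha : a ∈ 𝒜 i) : gh 𝒜 a = Polynomial.monomial i a := by
  unfold gh
  rw [RingHom.comp_apply]
  have h : (DirectSum.decomposeRingEquiv 𝒜 : A →+* DirectSum ℕ fun i => 𝒜 i) a =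
      DirectSum.of (fun i => 𝒜 i) i ⟨a, ha⟩ := DirectSum.decompose_of_mem 𝒜 ha
  rw [h, DirectSum.toSemiring_of]
  rfl

theorem gh_coeff (a : A) (n : ℕ) : (gh 𝒜 a).coeff n = GradedRing.proj 𝒜 n a := by
  classical
  induction a using DirectSum.Decomposition.inductionOn 𝒜 with
  | zero => simp
  | @homogeneous i a =>
    rw [gh_of 𝒜 (a : A) a.2, Polynomial.coeff_monomial, GradedRing.proj_apply]
    split_ifs with h
    · subst h
      rw [DirectSum.decompose_of_mem_same 𝒜 a.2]
    · rw [DirectSum.decompose_of_mem_ne 𝒜 a.2 h]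
  | add a b ha hb => rw [map_add, Polynomial.coeff_add, ha, hb, map_add]

theorem gh_inj : Function.Injective (gh 𝒜) := by
  rw [injective_iff_map_eq_zero]
  intro a ha
  have h1 : ∀ n, (DirectSum.decompose 𝒜 a n : A) = 0 := by
    intro n
    have := gh_coeff 𝒜 a n
    rw [ha, Polynomial.coeff_zero, GradedRing.proj_apply] at this
    exact this.symm
  have h2 : DirectSum.decompose 𝒜 a = 0 := by
    ext n
    exact h1 n
  rw [← DirectSum.decompose_zero 𝒜] at h2
  exact (DirectSum.decompose 𝒜).injective h2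

/-- the ideal of the elements of degree greater than `m` -/
noncomputable def Im (m : ℕ) : Ideal A :=
  (Ideal.span {(Polynomial.X : Polynomial A) ^ (m + 1)}).comap (gh 𝒜)

theorem mem_Im {m : ℕ} {a : A} : a ∈ Im 𝒜 m ↔ Polynomial.X ^ (m + 1) ∣ gh 𝒜 a := by
  unfold Im
  rw [Ideal.mem_comap, Ideal.mem_span_singleton]

theorem C_Im (hC : ClosedE C) (hM : ∀ (G : Type) [Group G], derivedSeries G 2 = ⊥ → C G)
    (h0 : C (GL (Fin 2) (𝒜 0))) (m : ℕ) : C (GL (Fin 2) (A ⧸ Im 𝒜 m)) := by
  induction m with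
  | zero =>
    have hle : ∀ a ∈ Im 𝒜 0, GradedRing.projZeroRingHom' 𝒜 a = 0 := by
      intro a ha
      rw [mem_Im, zero_add, pow_one, Polynomial.X_dvd_iff, gh_coeff] at ha
      exact Subtype.ext ha
    let f : A ⧸ Im 𝒜 0 →+* 𝒜 0 := Ideal.Quotient.lift (Im 𝒜 0) (GradedRing.projZeroRingHom' 𝒜) hle
    refine hC.base.of_injective _ _ (GeneralLinearGroup.map (n := Fin 2) f) ?_ h0
    rw [injective_iff_map_eq_one]
    intro g hg
    refine GL_ext_one fun i j => ?_
    have h1 := map_eq_one f hg i j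
    obtain ⟨a, ha⟩ := Ideal.Quotient.mk_surjective ((g : Matrix (Fin 2) (Fin 2) (A ⧸ Im 𝒜 0)) i j -
      (1 : Matrix (Fin 2) (Fin 2) (A ⧸ Im 𝒜 0)) i j)
    rw [← ha] at h1 ⊢
    rw [Ideal.Quotient.lift_mk] at h1
    rw [Ideal.Quotient.eq_zero_iff_mem, mem_Im, zero_add, pow_one, Polynomial.X_dvd_iff, gh_coeff]
    exact congrArg Subtype.val h1
  | succ m ih =>
    have hle : Im 𝒜 (m + 1) ≤ Im 𝒜 m := by
      intro a ha
      rw [mem_Im] at ha ⊢
      exact (pow_dvd_pow _ (by omega)).trans ha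
    refine C_sqext hC hM (Ideal.Quotient.factor hle) ih fun a b ha hb => ?_
    obtain ⟨a, rfl⟩ := Ideal.Quotient.mk_surjective a
    obtain ⟨b, rfl⟩ := Ideal.Quotient.mk_surjective b
    rw [Ideal.Quotient.factor_mk, Ideal.Quotient.eq_zero_iff_mem, mem_Im] at ha hb
    rw [← map_mul, Ideal.Quotient.eq_zero_iff_mem, mem_Im, map_mul]
    refine dvd_trans ?_ (mul_dvd_mul ha hb)
    rw [← pow_add]
    exact pow_dvd_pow _ (by omega)

/-- **graded domains** -/
theorem graded [IsDomain A] (hC : ClosedE C)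
    (hM : ∀ (G : Type) [Group G], derivedSeries G 2 = ⊥ → C G) (h0 : C (GL (Fin 2) (𝒜 0))) :
    C (GL (Fin 2) A) := by
  classical
  let F := FractionRing A
  let ι : A →+* RatFunc F := ((algebraMap (Polynomial F) (RatFunc F)).comp
    (Polynomial.mapRingHom (algebraMap A F))).comp (gh 𝒜)
  have hι : ∀ p : A, p ≠ 0 → RatFunc.inftyValuation F (ι p) = WithZero.exp ((gh 𝒜 p).natDegree : ℤ) := by
    intro p hp
    have h0 : gh 𝒜 p ≠ 0 := fun h => hp ((injective_iff_map_eq_zero _).1 (gh_inj 𝒜) p h)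
    have h1 : (gh 𝒜 p).map (algebraMap A F) ≠ 0 :=
      (Polynomial.map_ne_zero_iff (IsFractionRing.injective A F)).2 h0
    show RatFunc.inftyValuation F (algebraMap (Polynomial F) (RatFunc F)
      ((gh 𝒜 p).map (algebraMap A F))) = _
    rw [RatFunc.inftyValuation_apply, RatFunc.inftyValuation.polynomial F h1,
      Polynomial.natDegree_map_eq_of_injective (IsFractionRing.injective A F)]
  refine crit (v := RatFunc.inftyValuation F) hC ⟨1 / RatFunc.X, RatFunc.inftyValuation.X_inv F⟩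
    (GeneralLinearGroup.map ι) (fun g => ?_) (fun n => ?_)
  · have h1 : ((GeneralLinearGroup.map ι g : GL (Fin 2) (RatFunc F)) :
        Matrix (Fin 2) (Fin 2) (RatFunc F)).det = ι (g : Matrix (Fin 2) (Fin 2) A).det := by
      rw [RingHom.map_det]
      rfl
    have h2 : IsUnit (g : Matrix (Fin 2) (Fin 2) A).det := Matrix.isUnits_det_units g
    rw [h1, hι _ h2.ne_zero, Polynomial.natDegree_eq_zero_of_isUnit (h2.map (gh 𝒜))]
    simp
  · refine ⟨GL (Fin 2) (A ⧸ Im 𝒜 n.toNat), inferInstance,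
      GeneralLinearGroup.map (Ideal.Quotient.mk _), C_Im 𝒜 hC hM h0 _, fun g hg hf => ?_⟩
    refine GL_ext_one fun i j => ?_
    have h1 := map_eq_one _ hf i j
    rw [Ideal.Quotient.eq_zero_iff_mem, mem_Im] at h1
    have h2 : gh 𝒜 ((g : Matrix (Fin 2) (Fin 2) A) i j - (1 : Matrix (Fin 2) (Fin 2) A) i j) = 0 := by
      refine Polynomial.eq_zero_of_dvd_of_natDegree_lt h1 ?_
      rw [Polynomial.natDegree_X_pow, map_sub]
      refine lt_of_le_of_lt (Polynomial.natDegree_sub_le _ _) (Nat.lt_succ_of_le (max_le ?_ ?_))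
      · rcases eq_or_ne ((g : Matrix (Fin 2) (Fin 2) A) i j) 0 with h0 | h0
        · rw [h0]
          simp
        · have h3 := hg i j
          rw [GeneralLinearGroup.map_apply, hι _ h0, WithZero.exp_le_exp] at h3
          omega
      · rw [Matrix.one_apply]
        split_ifs <;> simp
    exact (injective_iff_map_eq_zero _).1 (gh_inj 𝒜) _ h2

end graded

end Pool.Agent.T2h61.GT
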