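import Pool.Agent.T2h61.GT.Poly
import Pool.Agent.N509.TX.Fg

/-!
# Polynomial rings in any set of variables
-/

set_option autoImplicit false

namespace Pool.Agent.T2h61.GT

open Matrix
open Pool.Agent.Y110.FJ (ClosedE)

variable {C : ∀ (G : Type) [Group G], Prop}

theorem GL_map_inj {R S : Type} [CommRing R] [CommRing S] (f : R →+* S) (hf : Function.Injective f) :
    Function.Injective (GeneralLinearGroup.map (n := Fin 2) f) := by
  rw [injective_iff_map_eq_one]
  intro g hg
  exact GL_ext_one fun i j => (injective_iff_map_eq_zero f).1 hf _ (map_eq_one f hg i j)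

theorem fin_poly (hC : ClosedE C) (R : Type) [CommRing R] [IsDomain R] (h : C (GL (Fin 2) R)) (n : ℕ) :
    C (GL (Fin 2) (MvPolynomial (Fin n) R)) := by
  induction n with
  | zero =>
    exact hC.base.of_injective _ _ (GeneralLinearGroup.map
      ((MvPolynomial.isEmptyAlgEquiv R (Fin 0)).toRingEquiv : MvPolynomial (Fin 0) R →+* R))
      (GL_map_inj _ (MvPolynomial.isEmptyAlgEquiv R (Fin 0)).injective) h
  | succ n ih =>
    exact hC.base.of_injective _ _ (GeneralLinearGroup.map
      ((MvPolynomial.finSuccEquiv R n).toRingEquiv :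
        MvPolynomial (Fin (n + 1)) R →+* Polynomial (MvPolynomial (Fin n) R)))
      (GL_map_inj _ (MvPolynomial.finSuccEquiv R n).injective) (poly hC _ ih)

/-- **polynomial rings** -/
theorem mvpoly (hC : ClosedE C) (R : Type) [CommRing R] [IsDomain R] (h : C (GL (Fin 2) R))
    (σ : Type) : C (GL (Fin 2) (MvPolynomial σ R)) := by
  classical
  refine Pool.Agent.N509.TX.of_fg hC fun H hH => ?_
  obtain ⟨S, hS⟩ := (Subgroup.fg_iff H).1 ((Group.fg_iff_subgroup_fg _).1 hH)
  obtain ⟨hS, hfin⟩ := hS
  -- the variables of the generators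
  obtain ⟨s, hs⟩ : ∃ s : Finset σ, s = hfin.toFinset.biUnion (fun g =>
      (Finset.univ : Finset (Fin 2 × Fin 2)).biUnion fun p =>
        ((g : Matrix (Fin 2) (Fin 2) (MvPolynomial σ R)) p.1 p.2).vars ∪
        (((g⁻¹ : GL (Fin 2) (MvPolynomial σ R)) : Matrix (Fin 2) (Fin 2) (MvPolynomial σ R)) p.1 p.2).vars) :=
    ⟨_, rfl⟩
  let e : MvPolynomial (s : Set σ) R →+* MvPolynomial σ R :=
    (MvPolynomial.rename (Subtype.val : ((s : Set σ) : Type) → σ) :
      MvPolynomial (s : Set σ) R →ₐ[R] MvPolynomial σ R)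
  have he : Function.Injective e := MvPolynomial.rename_injective _ Subtype.val_injective
  have hle : H ≤ (GeneralLinearGroup.map (n := Fin 2) e).range := by
    rw [← hS, Subgroup.closure_le]
    intro g hg
    have hv : ∀ (g' : GL (Fin 2) (MvPolynomial σ R)), (g' = g ∨ g' = g⁻¹) → ∀ i j, ∃ p, e p =
        (g' : Matrix (Fin 2) (Fin 2) (MvPolynomial σ R)) i j := by
      intro g' hg' i j
      have h1 : ((g' : Matrix (Fin 2) (Fin 2) (MvPolynomial σ R)) i j).vars ⊆ s := by
        rw [hs]
        intro x hx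
        rw [Finset.mem_biUnion]
        refine ⟨g, hfin.mem_toFinset.2 hg, ?_⟩
        rw [Finset.mem_biUnion]
        refine ⟨(i, j), Finset.mem_univ _, ?_⟩
        rw [Finset.mem_union]
        rcases hg' with rfl | rfl
        · exact Or.inl hx
        · exact Or.inr hx
      have h2 : (g' : Matrix (Fin 2) (Fin 2) (MvPolynomial σ R)) i j ∈
          MvPolynomial.supported R (s : Set σ) :=
        MvPolynomial.mem_supported.2 (by exact_mod_cast h1)
      rw [MvPolynomial.supported_eq_range_rename] at h2
      exact h2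
    choose A hA using hv g (Or.inl rfl)
    choose B hB using hv g⁻¹ (Or.inr rfl)
    have hmap : ∀ (M : Fin 2 → Fin 2 → MvPolynomial (s : Set σ) R), e.mapMatrix (Matrix.of M) =
        Matrix.of fun i j => e (M i j) := fun M => rfl
    have hinj : Function.Injective (e.mapMatrix (m := Fin 2)) := by
      intro M N hMN
      ext1 i j
      exact he (congrFun (congrFun hMN i) j)
    have hAB : Matrix.of A * Matrix.of B = 1 := by
      apply hinj
      rw [map_mul, map_one, hmap, hmap]
      have e1 : (Matrix.of fun i j => e (A i j)) = (g : Matrix (Fin 2) (Fin 2) (MvPolynomial σ R)) := by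
        ext1 i j
        exact hA i j
      have e2 : (Matrix.of fun i j => e (B i j)) =
          ((g⁻¹ : GL (Fin 2) (MvPolynomial σ R)) : Matrix (Fin 2) (Fin 2) (MvPolynomial σ R)) := by
        ext1 i j
        exact hB i j
      rw [e1, e2, ← Units.val_mul, mul_inv_cancel, Units.val_one]
    have hBA : Matrix.of B * Matrix.of A = 1 := mul_eq_one_comm.1 hAB
    refine ⟨⟨Matrix.of A, Matrix.of B, hAB, hBA⟩, ?_⟩
    apply Units.ext
    ext1 i j
    exact hA i j
  have h1 : C (GL (Fin 2) (MvPolynomial (s : Set σ) R)) := by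
    let e1 : (s : Set σ) ≃ Fin s.card := s.equivFin
    exact hC.base.of_injective _ _ (GeneralLinearGroup.map
      ((MvPolynomial.renameEquiv R e1).toRingEquiv :
        MvPolynomial (s : Set σ) R →+* MvPolynomial (Fin s.card) R))
      (GL_map_inj _ (MvPolynomial.renameEquiv R e1).injective) (fin_poly hC R h _)
  have h2 : C ↥(GeneralLinearGroup.map (n := Fin 2) e).range :=
    Pool.Agent.R941.FJ.C_equiv hC.base
      (MonoidHom.ofInjective (GL_map_inj e he)).symm h1
  exact Pool.Agent.R941.FJ.C_le hC.base hle h2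

end Pool.Agent.T2h61.GT
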