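import Mathlib

/-!
# The largest value of the entries of a matrix over a discretely valued field
-/

set_option autoImplicit false

namespace Pool.Agent.T2h61.GT

open WithZero Matrix

variable {K : Type} [Field K] (v : Valuation K ℤᵐ⁰)

/-- the largest value of the entries -/
def mx (g : Matrix (Fin 2) (Fin 2) K) : ℤᵐ⁰ :=
  max (max (v (g 0 0)) (v (g 0 1))) (max (v (g 1 0)) (v (g 1 1)))

/-- the largest value of the entries of the second row -/
def bt (g : Matrix (Fin 2) (Fin 2) K) : ℤᵐ⁰ := max (v (g 1 0)) (v (g 1 1))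

variable {v}

theorem le_mx (g : Matrix (Fin 2) (Fin 2) K) (i j : Fin 2) : v (g i j) ≤ mx v g := by
  unfold mx
  fin_cases i <;> fin_cases j <;> simp

theorem mx_le {g : Matrix (Fin 2) (Fin 2) K} {c : ℤᵐ⁰} (h : ∀ i j, v (g i j) ≤ c) : mx v g ≤ c :=
  max_le (max_le (h 0 0) (h 0 1)) (max_le (h 1 0) (h 1 1))

theorem le_bt (g : Matrix (Fin 2) (Fin 2) K) (j : Fin 2) : v (g 1 j) ≤ bt v g := by
  unfold bt
  fin_cases j <;> simp

theorem bt_le {g : Matrix (Fin 2) (Fin 2) K} {c : ℤᵐ⁰} (h : ∀ j, v (g 1 j) ≤ c) : bt v g ≤ c :=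
  max_le (h 0) (h 1)

theorem ent_mul (g h : Matrix (Fin 2) (Fin 2) K) (i j : Fin 2) {c : ℤᵐ⁰} (hc : ∀ l, v (g i l) ≤ c) :
    v ((g * h) i j) ≤ c * mx v h := by
  rw [Matrix.mul_apply, Fin.sum_univ_two]
  refine (v.map_add _ _).trans (max_le ?_ ?_)
  · rw [map_mul]
    exact mul_le_mul' (hc 0) (le_mx h 0 j)
  · rw [map_mul]
    exact mul_le_mul' (hc 1) (le_mx h 1 j)

theorem mx_mul (g h : Matrix (Fin 2) (Fin 2) K) : mx v (g * h) ≤ mx v g * mx v h :=
  mx_le fun i j => ent_mul g h i j fun l => le_mx g i l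

theorem bt_mul (g h : Matrix (Fin 2) (Fin 2) K) : bt v (g * h) ≤ bt v g * mx v h :=
  bt_le fun j => ent_mul g h 1 j fun l => le_bt g l

theorem det_le (g : Matrix (Fin 2) (Fin 2) K) : v g.det ≤ mx v g ^ 2 := by
  rw [Matrix.det_fin_two, pow_two]
  refine (v.map_sub _ _).trans (max_le ?_ ?_)
  · rw [map_mul]
    exact mul_le_mul' (le_mx g 0 0) (le_mx g 1 1)
  · rw [map_mul]
    exact mul_le_mul' (le_mx g 0 1) (le_mx g 1 0)

/-- the value of the determinant -/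
def dv (v : Valuation K ℤᵐ⁰) (g : GL (Fin 2) K) : ℤᵐ⁰ := v (g : Matrix (Fin 2) (Fin 2) K).det

theorem dv_ne (g : GL (Fin 2) K) : dv v g ≠ 0 := by
  unfold dv
  rw [Ne, v.zero_iff]
  exact (Matrix.isUnits_det_units g).ne_zero

theorem dv_mul (g h : GL (Fin 2) K) : dv v (g * h) = dv v g * dv v h := by
  unfold dv
  rw [Units.val_mul, Matrix.det_mul, map_mul]

theorem dv_one : dv v (1 : GL (Fin 2) K) = 1 := by
  unfold dv
  simp

theorem dv_inv (g : GL (Fin 2) K) : dv v g⁻¹ = (dv v g)⁻¹ := by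
  have h := dv_mul (v := v) g g⁻¹
  rw [mul_inv_cancel, dv_one] at h
  exact (inv_eq_of_mul_eq_one_right h.symm).symm

/-- the largest value of the entries -/
abbrev mg (v : Valuation K ℤᵐ⁰) (g : GL (Fin 2) K) : ℤᵐ⁰ := mx v (g : Matrix (Fin 2) (Fin 2) K)

theorem mg_mul (g h : GL (Fin 2) K) : mg v (g * h) ≤ mg v g * mg v h := by
  unfold mg
  rw [Units.val_mul]
  exact mx_mul _ _

theorem dv_le (g : GL (Fin 2) K) : dv v g ≤ mg v g ^ 2 := det_le _

theorem mg_ne (g : GL (Fin 2) K) : mg v g ≠ 0 := by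
  intro h
  have h1 := dv_le (v := v) g
  rw [h] at h1
  exact dv_ne (v := v) g (le_antisymm (by simpa using h1) zero_le')

theorem mg_inv_le (g : GL (Fin 2) K) : mg v g⁻¹ ≤ mg v g * (dv v g)⁻¹ := by
  have hd : (g : Matrix (Fin 2) (Fin 2) K).det ≠ 0 := (Matrix.isUnits_det_units g).ne_zero
  have h1 : ((g⁻¹ : GL (Fin 2) K) : Matrix (Fin 2) (Fin 2) K) =
      (g : Matrix (Fin 2) (Fin 2) K).det⁻¹ • (g : Matrix (Fin 2) (Fin 2) K).adjugate := by
    rw [Matrix.coe_units_inv, Matrix.inv_def, Ring.inverse_eq_inv']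
  refine mx_le fun i j => ?_
  rw [h1, Matrix.smul_apply, smul_eq_mul, map_mul, map_inv₀, mul_comm]
  refine mul_le_mul' ?_ le_rfl
  rw [Matrix.adjugate_fin_two]
  fin_cases i <;> fin_cases j
  · exact le_mx (v := v) _ 1 1
  · simpa using le_mx (v := v) (g : Matrix (Fin 2) (Fin 2) K) 0 1
  · simpa using le_mx (v := v) (g : Matrix (Fin 2) (Fin 2) K) 1 0
  · exact le_mx (v := v) _ 0 0

theorem mg_inv (g : GL (Fin 2) K) : mg v g⁻¹ = mg v g * (dv v g)⁻¹ := by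
  refine le_antisymm (mg_inv_le g) ?_
  have h := mg_inv_le (v := v) g⁻¹
  rw [inv_inv, dv_inv, inv_inv] at h
  calc mg v g * (dv v g)⁻¹ ≤ mg v g⁻¹ * dv v g * (dv v g)⁻¹ := mul_le_mul' h le_rfl
    _ = mg v g⁻¹ := by rw [mul_assoc, mul_inv_cancel₀ (dv_ne g), mul_one]

/-- the stabilizer of the standard vertex: the multiples of the integral invertible matrices -/
def SS (v : Valuation K ℤᵐ⁰) : Subgroup (GL (Fin 2) K) where
  carrier := {g | mg v g ^ 2 = dv v g}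
  mul_mem' {g h} hg hh := by
    have hg' : mg v g ^ 2 = dv v g := hg
    have hh' : mg v h ^ 2 = dv v h := hh
    refine le_antisymm ?_ (dv_le _)
    calc mg v (g * h) ^ 2 ≤ (mg v g * mg v h) ^ 2 := pow_le_pow_left' (mg_mul g h) 2
      _ = dv v (g * h) := by rw [mul_pow, hg', hh', dv_mul]
  one_mem' := by
    show mg v 1 ^ 2 = dv v 1
    have h1 : mg v (1 : GL (Fin 2) K) = 1 := by
      show mx v ((1 : GL (Fin 2) K) : Matrix (Fin 2) (Fin 2) K) = 1
      unfold mx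
      simp
    rw [h1, dv_one, one_pow]
  inv_mem' {g} hg := by
    have hg' : mg v g ^ 2 = dv v g := hg
    show mg v g⁻¹ ^ 2 = dv v g⁻¹
    rw [mg_inv, dv_inv, mul_pow, hg', pow_two, ← mul_assoc, mul_inv_cancel₀ (dv_ne g), one_mul]

theorem mem_SS {g : GL (Fin 2) K} : g ∈ SS v ↔ mg v g ^ 2 = dv v g := Iff.rfl

theorem SS_inv {s : GL (Fin 2) K} (hs : s ∈ SS v) : mg v s * mg v s⁻¹ = 1 := by
  rw [mg_inv, ← mul_assoc, ← pow_two, mem_SS.1 hs, mul_inv_cancel₀ (dv_ne s)]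

theorem mg_mul_right (g : GL (Fin 2) K) {s : GL (Fin 2) K} (hs : s ∈ SS v) :
    mg v (g * s) = mg v g * mg v s := by
  refine le_antisymm (mg_mul _ _) ?_
  calc mg v g * mg v s = mg v (g * s * s⁻¹) * mg v s := by rw [mul_inv_cancel_right]
    _ ≤ mg v (g * s) * mg v s⁻¹ * mg v s := mul_le_mul' (mg_mul _ _) le_rfl
    _ = mg v (g * s) := by rw [mul_assoc, mul_comm (mg v s⁻¹), SS_inv hs, mul_one]

theorem mg_mul_left (g : GL (Fin 2) K) {s : GL (Fin 2) K} (hs : s ∈ SS v) :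
    mg v (s * g) = mg v s * mg v g := by
  refine le_antisymm (mg_mul _ _) ?_
  calc mg v s * mg v g = mg v s * mg v (s⁻¹ * (s * g)) := by rw [inv_mul_cancel_left]
    _ ≤ mg v s * (mg v s⁻¹ * mg v (s * g)) := mul_le_mul' le_rfl (mg_mul _ _)
    _ = mg v (s * g) := by rw [← mul_assoc, SS_inv hs, one_mul]

theorem bt_mul_right (g : GL (Fin 2) K) {s : GL (Fin 2) K} (hs : s ∈ SS v) :
    bt v ((g * s : GL (Fin 2) K) : Matrix (Fin 2) (Fin 2) K) =
      bt v (g : Matrix (Fin 2) (Fin 2) K) * mg v s := by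
  refine le_antisymm ?_ ?_
  · rw [Units.val_mul]
    exact bt_mul _ _
  · have h1 : bt v (g : Matrix (Fin 2) (Fin 2) K) ≤
        bt v ((g * s : GL (Fin 2) K) : Matrix (Fin 2) (Fin 2) K) * mg v s⁻¹ := by
      have h2 := bt_mul (v := v) ((g * s : GL (Fin 2) K) : Matrix (Fin 2) (Fin 2) K)
        ((s⁻¹ : GL (Fin 2) K) : Matrix (Fin 2) (Fin 2) K)
      rwa [← Units.val_mul, mul_inv_cancel_right] at h2
    calc _ ≤ bt v ((g * s : GL (Fin 2) K) : Matrix (Fin 2) (Fin 2) K) * mg v s⁻¹ * mg v s :=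
          mul_le_mul' h1 le_rfl
      _ = _ := by rw [mul_assoc, mul_comm (mg v s⁻¹), SS_inv hs, mul_one]

end Pool.Agent.T2h61.GT
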