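import Pool.Agent.T2h61.GT.Ab

/-!
# Groups of matrices over algebras whose bounded subsets are finite-dimensional
-/

set_option autoImplicit false

namespace Pool.Agent.T2h61.GT

open WithZero Matrix
open Pool.Agent.Y110.FJ (ClosedE)

variable {C : ∀ (G : Type) [Group G], Prop}

/-- residually finite-dimensional algebras: a finite-dimensional subspace meets an ideal of finite
codimension trivially -/
theorem exists_ideal {k A : Type} [Field k] [CommRing A] [Algebra k A]
    (hres : ∀ a : A, a ≠ 0 → ∃ I : Ideal A, Module.Finite k (A ⧸ I) ∧ a ∉ I)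
    (W : Submodule k A) [hW : FiniteDimensional k W] :
    ∃ I : Ideal A, Module.Finite k (A ⧸ I) ∧ ∀ a ∈ W, a ∈ I → a = 0 := by
  classical
  obtain ⟨n, hn⟩ : ∃ n, n = Module.finrank k W := ⟨_, rfl⟩
  induction n using Nat.strong_induction_on generalizing W with
  | _ n ih =>
    by_cases h0 : ∀ a ∈ W, a = 0
    · refine ⟨⊤, ?_, fun a ha _ => h0 a ha⟩
      have : Subsingleton (A ⧸ (⊤ : Ideal A)) := Ideal.Quotient.subsingleton_iff.2 rfl
      infer_instance
    · push Not at h0
      obtain ⟨a, ha, ha0⟩ := h0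
      obtain ⟨I, hI, haI⟩ := hres a ha0
      let W' : Submodule k A := W ⊓ I.restrictScalars k
      have hlt : W' < W := lt_of_le_of_ne inf_le_left fun h => haI (by
        have : a ∈ W' := by rw [h]; exact ha
        exact this.2)
      have hW' : FiniteDimensional k W' := Submodule.finiteDimensional_of_le inf_le_left
      obtain ⟨J, hJ, hWJ⟩ := ih _ (by rw [hn]; exact Submodule.finrank_lt_finrank_of_lt hlt) W' rfl
      refine ⟨I ⊓ J, ?_, fun b hb hbI => hWJ b ⟨hb, hbI.1⟩ hbI.2⟩
      let f : (A ⧸ (I ⊓ J)) →ₐ[k] ((A ⧸ I) × (A ⧸ J)) :=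
        (Ideal.Quotient.factorₐ k (inf_le_left : I ⊓ J ≤ I)).prod
          (Ideal.Quotient.factorₐ k (inf_le_right : I ⊓ J ≤ J))
      refine Module.Finite.of_injective f.toLinearMap ?_
      rw [← LinearMap.ker_eq_bot, LinearMap.ker_eq_bot']
      intro x hx
      obtain ⟨x, rfl⟩ := Ideal.Quotient.mk_surjective x
      have h1 : Ideal.Quotient.mk I x = 0 := congrArg Prod.fst hx
      have h2 : Ideal.Quotient.mk J x = 0 := congrArg Prod.snd hx
      rw [Ideal.Quotient.eq_zero_iff_mem] at h1 h2 ⊢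
      exact ⟨h1, h2⟩

/-- groups acting faithfully on finite-dimensional vector spaces -/
theorem C_lin (hC : ClosedE C) {k : Type} [Field k] (hk : ∀ n, C (GL (Fin n) k)) {V : Type}
    [AddCommGroup V] [Module k V] [Module.Finite k V] : C (V →ₗ[k] V)ˣ := by
  classical
  let b := Module.finBasis k V
  refine hC.base.of_injective _ _ (Units.map (LinearMap.toMatrixAlgEquiv b :
    (V →ₗ[k] V) →* Matrix (Fin (Module.finrank k V)) (Fin (Module.finrank k V)) k)) ?_ (hk _)
  exact Units.map_injective (LinearMap.toMatrixAlgEquiv b).injective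

/-- `GL_2` of a finite-dimensional algebra -/
theorem C_fd (hC : ClosedE C) {k : Type} [Field k] (hk : ∀ n, C (GL (Fin n) k)) (B : Type) [CommRing B]
    [Algebra k B] [Module.Finite k B] : C (GL (Fin 2) B) := by
  classical
  refine hC.base.of_injective _ _ (Units.map
    (({ toFun := fun g => (Matrix.toLin' g).restrictScalars k
        map_one' := LinearMap.ext fun x => by simp
        map_mul' := fun g h => LinearMap.ext fun x => by simp } : Matrix (Fin 2) (Fin 2) B →* ((Fin 2 → B) →ₗ[k] (Fin 2 → B))))) ?_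
    (C_lin hC hk (V := Fin 2 → B))
  refine Units.map_injective fun g h hgh => ?_
  refine Matrix.toLin'.injective (LinearMap.ext fun x => ?_)
  exact congrArg (fun F : (Fin 2 → B) →ₗ[k] (Fin 2 → B) => F x) hgh

/-- **one place at infinity** -/
theorem oneplace (hC : ClosedE C) {k A : Type} [Field k] [CommRing A] [Algebra k A]
    (hk : ∀ n, C (GL (Fin n) k))
    (hres : ∀ a : A, a ≠ 0 → ∃ I : Ideal A, Module.Finite k (A ⧸ I) ∧ a ∉ I)
    {K : Type} [Field K] (v : Valuation K ℤᵐ⁰) (hπ : ∃ π : K, v π = exp (-1 : ℤ)) (ι : A →+* K)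
    (H : Subgroup (GL (Fin 2) A)) (hdet : ∀ h ∈ H, v (ι (h : Matrix (Fin 2) (Fin 2) A).det) = 1)
    (hb : ∀ n : ℤ, ∃ W : Submodule k A, FiniteDimensional k W ∧
      ∀ h ∈ H, (∀ i j, v (ι ((h : Matrix (Fin 2) (Fin 2) A) i j)) ≤ exp n) →
        ∀ i j, (h : Matrix (Fin 2) (Fin 2) A) i j ∈ W) : C H := by
  refine crit (v := v) hC hπ ((GeneralLinearGroup.map ι).comp H.subtype) (fun h => ?_) (fun n => ?_)
  · have h1 : ((GeneralLinearGroup.map ι (h : GL (Fin 2) A) : GL (Fin 2) K) :
        Matrix (Fin 2) (Fin 2) K).det = ι ((h : GL (Fin 2) A) : Matrix (Fin 2) (Fin 2) A).det := by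
      rw [RingHom.map_det]
      rfl
    show v ((GeneralLinearGroup.map ι (h : GL (Fin 2) A) : GL (Fin 2) K) :
        Matrix (Fin 2) (Fin 2) K).det = 1
    rw [h1]
    exact hdet _ h.2
  · obtain ⟨W, hW, h1⟩ := hb n
    obtain ⟨I, hI, h2⟩ := exists_ideal hres (W ⊔ Submodule.span k {1})
    refine ⟨GL (Fin 2) (A ⧸ I), inferInstance, (GeneralLinearGroup.map (Ideal.Quotient.mk I)).comp
      H.subtype, C_fd hC hk _, fun h hh hf => ?_⟩
    refine Subtype.ext (GL_ext_one fun i j => ?_)
    have h3 := map_eq_one (Ideal.Quotient.mk I) hf i j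
    rw [Ideal.Quotient.eq_zero_iff_mem] at h3
    refine h2 _ ?_ h3
    refine Submodule.sub_mem _ (Submodule.mem_sup_left (h1 h h.2 (fun i j => hh i j) i j)) ?_
    rw [Matrix.one_apply]
    split_ifs
    · exact Submodule.mem_sup_right (Submodule.mem_span_singleton_self 1)
    · exact Submodule.zero_mem _

end Pool.Agent.T2h61.GT
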