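import Pool.Agent.T2h61.GT.Crit

/-!
# Groups of matrices of degree two over polynomial rings
-/

set_option autoImplicit false

namespace Pool.Agent.T2h61.GT

open WithZero Matrix Polynomial
open Pool.Agent.Y110.FJ (ClosedE)

variable {C : ∀ (G : Type) [Group G], Prop}

/-- an entry of a matrix in the kernel -/
theorem map_eq_one {R S : Type} [CommRing R] [CommRing S] (f : R →+* S) {g : GL (Fin 2) R}
    (h : GeneralLinearGroup.map f g = 1) (i j : Fin 2) :
    f ((g : Matrix (Fin 2) (Fin 2) R) i j - (1 : Matrix (Fin 2) (Fin 2) R) i j) = 0 := by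
  have h1 : ((GeneralLinearGroup.map f g : GL (Fin 2) S) : Matrix (Fin 2) (Fin 2) S) i j =
      ((1 : GL (Fin 2) S) : Matrix (Fin 2) (Fin 2) S) i j := by rw [h]
  rw [GeneralLinearGroup.map_apply] at h1
  rw [map_sub, h1, Units.val_one, Matrix.one_apply, Matrix.one_apply]
  split_ifs
  · rw [map_one, sub_self]
  · rw [map_zero, sub_self]

theorem GL_ext_one {R : Type} [CommRing R] {g : GL (Fin 2) R}
    (h : ∀ i j, (g : Matrix (Fin 2) (Fin 2) R) i j - (1 : Matrix (Fin 2) (Fin 2) R) i j = 0) : g = 1 := by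
  apply Units.ext
  ext i j
  rw [Units.val_one]
  exact sub_eq_zero.1 (h i j)

/-- bounded degrees are detected by values -/
theorem detect (hC : ClosedE C) (R : Type) [CommRing R] [IsDomain R] (h : C (GL (Fin 2) R)) (m : ℕ) :
    ∃ (P : Type) (_ : Group P) (f : GL (Fin 2) R[X] →* P), C P ∧
      ∀ g : GL (Fin 2) R[X], (∀ i j, ((g : Matrix (Fin 2) (Fin 2) R[X]) i j).natDegree ≤ m) →
        f g = 1 → g = 1 := by
  have hdeg : ∀ g : GL (Fin 2) R[X], (∀ i j, ((g : Matrix (Fin 2) (Fin 2) R[X]) i j).natDegree ≤ m) →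
      ∀ i j, ((g : Matrix (Fin 2) (Fin 2) R[X]) i j - (1 : Matrix (Fin 2) (Fin 2) R[X]) i j).natDegree <
        m + 1 := by
    intro g hg i j
    refine lt_of_le_of_lt (natDegree_sub_le _ _) (Nat.lt_succ_of_le (max_le (hg i j) ?_))
    rw [Matrix.one_apply]
    split_ifs <;> simp
  rcases finite_or_infinite R with hR | hR
  · -- finite rings
    refine ⟨GL (Fin 2) (R[X] ⧸ Ideal.span {(X : R[X]) ^ (m + 1)}), inferInstance,
      GeneralLinearGroup.map (Ideal.Quotient.mk _), ?_, fun g hg h1 => GL_ext_one fun i j => ?_⟩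
    · have h2 : Module.Finite R (R[X] ⧸ Ideal.span {(X : R[X]) ^ (m + 1)}) :=
        (monic_X_pow (m + 1)).finite_quotient
      have h3 : Finite (R[X] ⧸ Ideal.span {(X : R[X]) ^ (m + 1)}) := Module.finite_of_finite R
      exact C_finite hC _
    · have h2 := map_eq_one _ h1 i j
      rw [Ideal.Quotient.eq_zero_iff_mem, Ideal.mem_span_singleton] at h2
      refine eq_zero_of_dvd_of_natDegree_lt h2 ?_
      rw [natDegree_X_pow]
      exact hdeg g hg i j
  · -- infinite rings
    refine ⟨Fin (m + 1) → GL (Fin 2) R, inferInstance,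
      MonoidHom.pi fun i => GeneralLinearGroup.map (evalRingHom (Infinite.natEmbedding R (i : ℕ))),
      C_pi hC h _, fun g hg h1 => GL_ext_one fun i j => ?_⟩
    refine eq_zero_of_natDegree_lt_card_of_eval_eq_zero _
      (f := fun i : Fin (m + 1) => Infinite.natEmbedding R (i : ℕ)) ?_ (fun l => ?_) ?_
    · intro a b hab
      exact Fin.ext ((Infinite.natEmbedding R).injective hab)
    · have h2 := congrFun h1 l
      exact map_eq_one (evalRingHom (Infinite.natEmbedding R (l : ℕ))) h2 i j
    · rw [Fintype.card_fin]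
      exact hdeg g hg i j

/-- **polynomial rings in one variable** -/
theorem poly (hC : ClosedE C) (R : Type) [CommRing R] [IsDomain R] (h : C (GL (Fin 2) R)) :
    C (GL (Fin 2) R[X]) := by
  classical
  let F := FractionRing R
  let ι : R[X] →+* RatFunc F := (algebraMap F[X] (RatFunc F)).comp (mapRingHom (algebraMap R F))
  have hι : ∀ p : R[X], p ≠ 0 → RatFunc.inftyValuation F (ι p) = exp (p.natDegree : ℤ) := by
    intro p hp
    have h1 : p.map (algebraMap R F) ≠ 0 :=
      (Polynomial.map_ne_zero_iff (IsFractionRing.injective R F)).2 hp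
    show RatFunc.inftyValuation F (algebraMap F[X] (RatFunc F) (p.map (algebraMap R F))) = _
    rw [RatFunc.inftyValuation_apply, RatFunc.inftyValuation.polynomial F h1,
      natDegree_map_eq_of_injective (IsFractionRing.injective R F)]
  refine crit (v := RatFunc.inftyValuation F) hC ⟨1 / RatFunc.X, RatFunc.inftyValuation.X_inv F⟩
    (GeneralLinearGroup.map ι) (fun g => ?_) (fun n => ?_)
  · have h1 : ((GeneralLinearGroup.map ι g : GL (Fin 2) (RatFunc F)) :
        Matrix (Fin 2) (Fin 2) (RatFunc F)).det = ι (g : Matrix (Fin 2) (Fin 2) R[X]).det := by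
      rw [RingHom.map_det]
      rfl
    have h2 : IsUnit (g : Matrix (Fin 2) (Fin 2) R[X]).det := Matrix.isUnits_det_units g
    rw [h1, hι _ h2.ne_zero, natDegree_eq_zero_of_isUnit h2]
    simp
  · obtain ⟨P, hP, f, h1, h2⟩ := detect hC R h n.toNat
    refine ⟨P, hP, f, h1, fun g hg hf => h2 g (fun i j => ?_) hf⟩
    rcases eq_or_ne ((g : Matrix (Fin 2) (Fin 2) R[X]) i j) 0 with h0 | h0
    · rw [h0]
      simp
    · have h3 := hg i j
      rw [GeneralLinearGroup.map_apply, hι _ h0, exp_le_exp] at h3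
      omega

end Pool.Agent.T2h61.GT
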