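import Pool.Agent.T2h61.GT.Mx

/-!
# The tree of `GL_2` of a discretely valued field
-/

set_option autoImplicit false

namespace Pool.Agent.T2h61.GT

open WithZero Matrix SimpleGraph

/-- a connected graph with a height function, different at adjacent vertices, such that every
vertex has at most one lower neighbour, is a tree -/
theorem tree_of_height {V : Type} {T : SimpleGraph V} (h : V → ℤ) (hc : T.Connected)
    (hne : ∀ u v, T.Adj u v → h u ≠ h v)
    (huniq : ∀ v a b, T.Adj v a → T.Adj v b → h a < h v → h b < h v → a = b) : T.IsTree := by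
  classical
  refine ⟨hc, ?_⟩
  intro v c hcyc
  obtain ⟨u, hu, hmax⟩ := Finset.exists_max_image c.support.toFinset h
    ⟨v, by simp⟩
  rw [List.mem_toFinset] at hu
  have hc2 := hcyc.rotate hu
  have hsup : ∀ x, x ∈ (c.rotate u hu).support → x ∈ c.support := by
    intro x hx
    rwa [SimpleGraph.Walk.mem_support_rotate_iff] at hx
  have hn : ¬ (c.rotate u hu).Nil := hc2.not_nil
  have h1 := (c.rotate u hu).adj_snd hn
  have h2 := (c.rotate u hu).adj_penultimate hn
  have m1 := hmax _ (List.mem_toFinset.2 (hsup _ ((c.rotate u hu).getVert_mem_support 1)))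
  have m2 := hmax _ (List.mem_toFinset.2 (hsup _
    ((c.rotate u hu).getVert_mem_support ((c.rotate u hu).length - 1))))
  exact hc2.snd_ne_penultimate (huniq u _ _ h1 h2.symm (lt_of_le_of_ne m1 (hne _ _ h1).symm)
    (lt_of_le_of_ne m2 (hne _ _ h2)))

variable {K : Type} [Field K] {v : Valuation K ℤᵐ⁰}

/-- the square of the distance function, up to the determinant -/
def IsAdj (v : Valuation K ℤᵐ⁰) (g : GL (Fin 2) K) : Prop := mg v g ^ 2 = exp (1 : ℤ) * dv v g

theorem isAdj_right {g s : GL (Fin 2) K} (hs : s ∈ SS v) : IsAdj v (g * s) ↔ IsAdj v g := by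
  unfold IsAdj
  rw [mg_mul_right g hs, mul_pow, mem_SS.1 hs, dv_mul, ← mul_assoc]
  exact mul_left_inj' (dv_ne s)

theorem isAdj_left {g s : GL (Fin 2) K} (hs : s ∈ SS v) : IsAdj v (s * g) ↔ IsAdj v g := by
  unfold IsAdj
  rw [mg_mul_left g hs, mul_pow, mem_SS.1 hs, dv_mul, mul_left_comm]
  exact mul_right_inj' (dv_ne s)

theorem isAdj_inv {g : GL (Fin 2) K} : IsAdj v g⁻¹ ↔ IsAdj v g := by
  have key : ∀ {g : GL (Fin 2) K}, IsAdj v g → IsAdj v g⁻¹ := by
    intro g h
    unfold IsAdj at h ⊢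
    rw [mg_inv, dv_inv, mul_pow, h, pow_two, mul_assoc, ← mul_assoc (dv v g), mul_inv_cancel₀ (dv_ne g),
      one_mul]
  refine ⟨fun h => ?_, key⟩
  have := key h
  rwa [inv_inv] at this

/-- the vertices -/
abbrev Vx (v : Valuation K ℤᵐ⁰) : Type := GL (Fin 2) K ⧸ SS v

/-- the tree -/
def Tr (v : Valuation K ℤᵐ⁰) : SimpleGraph (Vx v) where
  Adj x y := ∃ g h : GL (Fin 2) K, x = (g : Vx v) ∧ y = (h : Vx v) ∧ IsAdj v (g⁻¹ * h)
  symm := ⟨fun x y ⟨g, h, h1, h2, h3⟩ => ⟨h, g, h2, h1, by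
    rw [← isAdj_inv, _root_.mul_inv_rev, inv_inv]
    exact h3⟩⟩
  loopless := ⟨fun x ⟨g, h, h1, h2, h3⟩ => by
    have h4 : g⁻¹ * h ∈ SS v := QuotientGroup.eq.1 (h1.symm.trans h2)
    unfold IsAdj at h3
    rw [mem_SS.1 h4] at h3
    have h5 : (exp (1 : ℤ) : ℤᵐ⁰) = 1 := by
      have := mul_right_cancel₀ (dv_ne (v := v) (g⁻¹ * h)) ((one_mul _).trans h3)
      exact this.symm
    rw [← exp_zero, exp_inj] at h5
    omega⟩

theorem adj_mk {g h : GL (Fin 2) K} : (Tr v).Adj (g : Vx v) (h : Vx v) ↔ IsAdj v (g⁻¹ * h) := by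
  constructor
  · rintro ⟨g', h', h1, h2, h3⟩
    have e1 : g⁻¹ * g' ∈ SS v := QuotientGroup.eq.1 h1
    have e2 : h'⁻¹ * h ∈ SS v := QuotientGroup.eq.1 h2.symm
    have e3 : g⁻¹ * h = (g⁻¹ * g') * (g'⁻¹ * h') * (h'⁻¹ * h) := by group
    rw [e3, isAdj_right e2, isAdj_left e1]
    exact h3
  · intro h3
    exact ⟨g, h, rfl, rfl, h3⟩

theorem adj_smul (γ : GL (Fin 2) K) (x y : Vx v) (h : (Tr v).Adj x y) : (Tr v).Adj (γ • x) (γ • y) := by
  obtain ⟨g, h', rfl, rfl, h3⟩ := h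
  refine ⟨γ * g, γ * h', rfl, rfl, ?_⟩
  rwa [_root_.mul_inv_rev, mul_assoc, inv_mul_cancel_left]

/-- the matrices `(t, a; 0, 1)` -/
def up (t : Kˣ) (a : K) : GL (Fin 2) K :=
  GeneralLinearGroup.mkOfDetNeZero !![(t : K), a; 0, 1] (by
    rw [Matrix.det_fin_two_of]
    simp)

theorem up_val (t : Kˣ) (a : K) : (up t a : Matrix (Fin 2) (Fin 2) K) = !![(t : K), a; 0, 1] := rfl

theorem dv_up (t : Kˣ) (a : K) : dv v (up t a) = v t := by
  unfold dv
  rw [up_val, Matrix.det_fin_two_of]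
  simp

theorem up_inv_mul (t t' : Kˣ) (a a' : K) :
    (up t a)⁻¹ * up t' a' = up (t' / t) ((a' - a) / t) := by
  rw [inv_mul_eq_iff_eq_mul]
  apply Units.ext
  rw [Units.val_mul, up_val, up_val, up_val, Matrix.mul_fin_two]
  have ht : (t : K) ≠ 0 := t.ne_zero
  rw [Units.val_div_eq_div_val]
  congr 1
  ext i j
  fin_cases i <;> fin_cases j <;> simp <;> field_simp
  ring

theorem mg_up (t : Kˣ) (a : K) : mg v (up t a) = max (max (v t) (v a)) 1 := by
  unfold mg mx
  rw [up_val]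
  simp

/-- every vertex is given by an upper triangular matrix -/
theorem exists_up (x : Vx v) : ∃ (t : Kˣ) (a : K), x = (up t a : Vx v) := by
  induction x using QuotientGroup.induction_on with
  | H g =>
  have hd : (g : Matrix (Fin 2) (Fin 2) K).det ≠ 0 := (Matrix.isUnits_det_units g).ne_zero
  -- reduction to the case of an entry `g 1 1` which divides `g 1 0`
  have key : ∀ g : GL (Fin 2) K, v ((g : Matrix (Fin 2) (Fin 2) K) 1 0) ≤
      v ((g : Matrix (Fin 2) (Fin 2) K) 1 1) → (g : Matrix (Fin 2) (Fin 2) K).det ≠ 0 →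
      ∃ (t : Kˣ) (a : K), (g : Vx v) = (up t a : Vx v) := by
    intro g hle hd
    obtain ⟨p, hp⟩ : ∃ p, p = (g : Matrix (Fin 2) (Fin 2) K) 0 0 := ⟨_, rfl⟩
    obtain ⟨q, hq⟩ : ∃ q, q = (g : Matrix (Fin 2) (Fin 2) K) 0 1 := ⟨_, rfl⟩
    obtain ⟨r, hr⟩ : ∃ r, r = (g : Matrix (Fin 2) (Fin 2) K) 1 0 := ⟨_, rfl⟩
    obtain ⟨s, hs⟩ : ∃ s, s = (g : Matrix (Fin 2) (Fin 2) K) 1 1 := ⟨_, rfl⟩
    rw [← hr, ← hs] at hle
    rw [Matrix.det_fin_two, ← hp, ← hq, ← hr, ← hs] at hd
    have hs0 : s ≠ 0 := by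
      rintro rfl
      rw [map_zero] at hle
      have hr0 : r = 0 := (v.zero_iff).1 (le_antisymm hle zero_le)
      rw [hr0] at hd
      simp at hd
    refine ⟨Units.mk0 ((p * s - q * r) / s ^ 2) (div_ne_zero hd (pow_ne_zero _ hs0)), q / s, ?_⟩
    rw [QuotientGroup.eq]
    rw [← inv_mem_iff, _root_.mul_inv_rev, inv_inv]
    have hk : (up (Units.mk0 ((p * s - q * r) / s ^ 2) (div_ne_zero hd (pow_ne_zero _ hs0))) (q / s))⁻¹ * g =
        GeneralLinearGroup.mkOfDetNeZero !![s, 0; r, s] (by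
          rw [Matrix.det_fin_two_of]
          simpa using hs0) := by
      rw [inv_mul_eq_iff_eq_mul]
      apply Units.ext
      rw [Units.val_mul, up_val]
      have e : ((GeneralLinearGroup.mkOfDetNeZero !![s, 0; r, s] (by
          rw [Matrix.det_fin_two_of]
          simpa using hs0) : GL (Fin 2) K) : Matrix (Fin 2) (Fin 2) K) = !![s, 0; r, s] := rfl
      rw [e, Matrix.mul_fin_two]
      ext i j
      fin_cases i <;> fin_cases j
      · simp only [Units.val_mk0, Fin.zero_eta, Fin.isValue, Matrix.of_apply, Matrix.cons_val', Matrix.cons_val_zero, Matrix.cons_val_fin_one]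
        rw [← hp]
        field_simp
        ring
      · simp only [Units.val_mk0, Fin.zero_eta, Fin.isValue, Fin.mk_one, Matrix.of_apply, Matrix.cons_val', Matrix.cons_val_zero, Matrix.cons_val_one, Matrix.cons_val_fin_one]
        rw [← hq]
        field_simp
        ring
      · simp [← hr]
      · simp [← hs]
    rw [hk, mem_SS]
    have e : dv v (GeneralLinearGroup.mkOfDetNeZero !![s, 0; r, s] (by
          rw [Matrix.det_fin_two_of]
          simpa using hs0) : GL (Fin 2) K) = v s ^ 2 := by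
      unfold dv
      show v (!![s, 0; r, s] : Matrix (Fin 2) (Fin 2) K).det = _
      rw [Matrix.det_fin_two_of]
      simp [pow_two]
    rw [e]
    congr 1
    show mx v (!![s, 0; r, s] : Matrix (Fin 2) (Fin 2) K) = _
    unfold mx
    simp only [Matrix.of_apply, Matrix.cons_val', Matrix.cons_val_zero, Matrix.cons_val_one, Matrix.cons_val_fin_one, map_zero]
    rw [max_eq_right hle, max_eq_left (zero_le : (0 : ℤᵐ⁰) ≤ v s), max_self]
  rcases le_total (v ((g : Matrix (Fin 2) (Fin 2) K) 1 0)) (v ((g : Matrix (Fin 2) (Fin 2) K) 1 1)) with h | h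
  · exact key g h hd
  · -- exchange the columns
    obtain ⟨w, hw⟩ : ∃ w : GL (Fin 2) K, (w : Matrix (Fin 2) (Fin 2) K) = !![0, 1; 1, 0] :=
      ⟨GeneralLinearGroup.mkOfDetNeZero !![0, 1; 1, 0] (by simp [Matrix.det_fin_two_of]), rfl⟩
    have hwS : w ∈ SS v := by
      rw [mem_SS]
      unfold dv mg mx
      rw [hw]
      simp [Matrix.det_fin_two_of]
    have e : ((g * w : GL (Fin 2) K) : Matrix (Fin 2) (Fin 2) K) =
        !![(g : Matrix (Fin 2) (Fin 2) K) 0 1, (g : Matrix (Fin 2) (Fin 2) K) 0 0;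
          (g : Matrix (Fin 2) (Fin 2) K) 1 1, (g : Matrix (Fin 2) (Fin 2) K) 1 0] := by
      rw [Units.val_mul, hw]
      ext i j
      fin_cases i <;> fin_cases j <;> simp [Matrix.mul_apply, Fin.sum_univ_two]
    obtain ⟨t, a, h1⟩ := key (g * w) (by rw [e]; simpa using h) (Matrix.isUnits_det_units _).ne_zero
    refine ⟨t, a, ?_⟩
    rw [← h1, QuotientGroup.eq]
    rwa [inv_mul_cancel_left]

end Pool.Agent.T2h61.GT
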