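import Pool.Agent.T2h61.GT.Tree

/-!
# The tree of `GL_2` of a discretely valued field: it is a tree
-/

set_option autoImplicit false

namespace Pool.Agent.T2h61.GT

open WithZero Matrix SimpleGraph

variable {K : Type} [Field K] {v : Valuation K ℤᵐ⁰}

theorem vu_ne (t : Kˣ) : v (t : K) ≠ 0 := (v.ne_zero_iff).2 t.ne_zero

theorem sq_eq_self_iff {M τ : ℤᵐ⁰} (h1 : 1 ≤ M) (h2 : τ ≤ M) (h : M ^ 2 = τ) : M = 1 ∧ τ = 1 := by
  have hM : M ≠ 0 := (zero_lt_one.trans_le h1).ne'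
  have h3 : M * M ≤ 1 * M := by
    rw [one_mul, ← pow_two, h]
    exact h2
  have h4 : M ≤ 1 := by
    rcases le_or_gt M 1 with h5 | h5
    · exact h5
    · have h6 : 1 * M < M * M := mul_lt_mul_of_pos_right h5 (zero_lt_iff.2 hM)
      exact absurd h6 (not_lt.2 h3)
  have h5 : M = 1 := le_antisymm h4 h1
  exact ⟨h5, by rw [← h, h5, one_pow]⟩

theorem up_eq {t t' : Kˣ} {a a' : K} : ((up t a : GL (Fin 2) K) : Vx v) = (up t' a' : GL (Fin 2) K) ↔
    v (t : K) = v (t' : K) ∧ v (a' - a) ≤ v (t : K) := by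
  have ht : v (t : K) ≠ 0 := vu_ne t
  rw [QuotientGroup.eq, up_inv_mul, mem_SS, mg_up, dv_up, Units.val_div_eq_div_val, map_div₀, map_div₀]
  constructor
  · intro h
    obtain ⟨h1, h2⟩ := sq_eq_self_iff (le_max_right _ _) ((le_max_left _ _).trans (le_max_left _ _)) h
    refine ⟨?_, ?_⟩
    · rw [div_eq_one_iff_eq ht] at h2
      exact h2.symm
    · have h3 : v (a' - a) / v (t : K) ≤ 1 := by
        rw [← h1]
        exact (le_max_right _ _).trans (le_max_left _ _)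
      rwa [div_le_one₀ (zero_lt_iff.2 ht)] at h3
  · rintro ⟨h1, h2⟩
    rw [← h1, div_self ht]
    have h3 : v (a' - a) / v (t : K) ≤ 1 := (div_le_one₀ (zero_lt_iff.2 ht)).2 h2
    rw [max_eq_left h3, max_self, one_pow]

theorem adj_up {t t' : Kˣ} {a a' : K}
    (h : (Tr v).Adj ((up t a : GL (Fin 2) K) : Vx v) (up t' a' : GL (Fin 2) K)) :
    (v (t' : K) = exp (1 : ℤ) * v (t : K) ∧ v (a' - a) ≤ v (t' : K)) ∨
    v (t : K) = exp (1 : ℤ) * v (t' : K) := by
  have ht : v (t : K) ≠ 0 := vu_ne t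
  have ht' : v (t' : K) ≠ 0 := vu_ne t'
  rw [adj_mk, up_inv_mul] at h
  unfold IsAdj at h
  rw [mg_up, dv_up, Units.val_div_eq_div_val, map_div₀, map_div₀] at h
  obtain ⟨M, hM⟩ : ∃ M, M = max (max (v (t' : K) / v (t : K)) (v (a' - a) / v (t : K))) 1 := ⟨_, rfl⟩
  rw [← hM] at h
  have h1 : 1 ≤ M := by rw [hM]; exact le_max_right _ _
  have h2 : v (t' : K) / v (t : K) ≤ M := by rw [hM]; exact (le_max_left _ _).trans (le_max_left _ _)
  have h3 : v (a' - a) / v (t : K) ≤ M := by rw [hM]; exact (le_max_right _ _).trans (le_max_left _ _)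
  have hM0 : M ≠ 0 := (zero_lt_one.trans_le h1).ne'
  have hτ : v (t' : K) / v (t : K) ≠ 0 := div_ne_zero ht' ht
  -- pass to logarithms
  have l1 : 0 ≤ log M := by
    rw [← log_one]
    exact (log_le_log one_ne_zero hM0).2 h1
  have l2 : log (v (t' : K) / v (t : K)) ≤ log M := (log_le_log hτ hM0).2 h2
  have l3 : 2 * log M = 1 + log (v (t' : K) / v (t : K)) := by
    have := congrArg log h
    rw [log_mul (exp_ne_zero) hτ, log_exp, log_pow] at this
    simpa using this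
  have l4 : log M = 0 ∨ log M = 1 := by omega
  rcases l4 with l4 | l4
  · right
    have l5 : log (v (t' : K) / v (t : K)) = -1 := by omega
    rw [log_div ht' ht] at l5
    rw [← exp_log ht, ← exp_log ht', ← exp_add, exp_inj]
    omega
  · left
    have l5 : log (v (t' : K) / v (t : K)) = 1 := by omega
    have l6 : v (t' : K) = exp (1 : ℤ) * v (t : K) := by
      rw [log_div ht' ht] at l5
      rw [← exp_log ht, ← exp_log ht', ← exp_add, exp_inj]
      omega
    refine ⟨l6, ?_⟩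
    have l7 : M = exp (1 : ℤ) := by rw [← exp_log hM0, l4]
    rw [l7, div_le_iff₀ (zero_lt_iff.2 ht)] at h3
    rwa [l6]

/-- the height of a vertex -/
noncomputable def ht (x : Vx v) : ℤ := - log (v ((exists_up x).choose : K))

theorem ht_up (t : Kˣ) (a : K) : ht ((up t a : GL (Fin 2) K) : Vx v) = - log (v (t : K)) := by
  obtain ⟨b, hb⟩ := (exists_up ((up t a : GL (Fin 2) K) : Vx v)).choose_spec
  have h1 := (up_eq.1 hb).1
  unfold ht
  rw [h1]

theorem adj_parent (hπ : ∃ π : K, v π = exp (-1 : ℤ)) (t : Kˣ) (a : K) :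
    ∃ t' : Kˣ, v (t' : K) = exp (1 : ℤ) * v (t : K) ∧
      (Tr v).Adj ((up t a : GL (Fin 2) K) : Vx v) (up t' a : GL (Fin 2) K) := by
  obtain ⟨π, hπ⟩ := hπ
  have hπ0 : π ≠ 0 := by
    rintro rfl
    rw [map_zero] at hπ
    exact exp_ne_zero hπ.symm
  have ht : v (t : K) ≠ 0 := vu_ne t
  have e : v ((t / Units.mk0 π hπ0 : Kˣ) : K) = exp (1 : ℤ) * v (t : K) := by
    rw [Units.val_div_eq_div_val, map_div₀, Units.val_mk0, hπ, div_eq_mul_inv, ← WithZero.exp_neg, neg_neg, mul_comm]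
  refine ⟨t / Units.mk0 π hπ0, e, ?_⟩
  rw [adj_mk, up_inv_mul]
  unfold IsAdj
  rw [mg_up, dv_up, sub_self, zero_div, map_zero, Units.val_div_eq_div_val, map_div₀, e,
    mul_div_assoc, div_self ht, mul_one, max_eq_left (zero_le : (0 : ℤᵐ⁰) ≤ exp (1 : ℤ))]
  have h1 : (1 : ℤᵐ⁰) ≤ exp (1 : ℤ) := by
    rw [← exp_zero, exp_le_exp]
    omega
  rw [max_eq_left h1, pow_two]

theorem reach_up (hπ : ∃ π : K, v π = exp (-1 : ℤ)) (m : ℕ) : ∀ (t : Kˣ) (a : K),
    ∃ t' : Kˣ, v (t' : K) = exp (m : ℤ) * v (t : K) ∧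
      (Tr v).Reachable ((up t a : GL (Fin 2) K) : Vx v) (up t' a : GL (Fin 2) K) := by
  induction m with
  | zero => exact fun t a => ⟨t, by simp, Reachable.refl _⟩
  | succ m ih =>
    intro t a
    obtain ⟨t₁, h1, h2⟩ := adj_parent hπ t a
    obtain ⟨t₂, h3, h4⟩ := ih t₁ a
    refine ⟨t₂, ?_, h2.reachable.trans h4⟩
    rw [h3, h1, ← mul_assoc, ← exp_add]
    congr 2

theorem connected (hπ : ∃ π : K, v π = exp (-1 : ℤ)) : (Tr v).Connected := by
  have : Nonempty (Vx v) := ⟨((1 : GL (Fin 2) K) : Vx v)⟩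
  refine ⟨fun x y => ?_⟩
  obtain ⟨t, a, rfl⟩ := exists_up x
  obtain ⟨s, b, rfl⟩ := exists_up y
  obtain ⟨N, hN1, hN2, hN3⟩ : ∃ N : ℤ, log (v (t : K)) ≤ N ∧ log (v (s : K)) ≤ N ∧ log (v (b - a)) ≤ N :=
    ⟨max (max (log (v (t : K))) (log (v (s : K)))) (log (v (b - a))), by simp, by simp, by simp⟩
  obtain ⟨t', h1, h2⟩ := reach_up hπ (N - log (v (t : K))).toNat t a
  obtain ⟨s', h3, h4⟩ := reach_up hπ (N - log (v (s : K))).toNat s b
  have e1 : v (t' : K) = exp N := by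
    rw [h1, Int.toNat_of_nonneg (by omega), ← exp_log (vu_ne (v := v) t), ← exp_add, log_exp, exp_inj]
    omega
  have e2 : v (s' : K) = exp N := by
    rw [h3, Int.toNat_of_nonneg (by omega), ← exp_log (vu_ne (v := v) s), ← exp_add, log_exp, exp_inj]
    omega
  have e3 : ((up t' a : GL (Fin 2) K) : Vx v) = (up s' b : GL (Fin 2) K) := by
    rw [up_eq, e1, e2]
    refine ⟨rfl, ?_⟩
    rcases eq_or_ne (v (b - a)) 0 with h | h
    · rw [h]
      exact zero_le
    · rw [← exp_log h, exp_le_exp]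
      exact hN3
  exact (h2.trans (e3 ▸ Reachable.refl _)).trans h4.symm

/-- **the tree** -/
theorem isTree (hπ : ∃ π : K, v π = exp (-1 : ℤ)) : (Tr v).IsTree := by
  refine tree_of_height ht (connected hπ) ?_ ?_
  · intro x y h
    obtain ⟨t, a, rfl⟩ := exists_up x
    obtain ⟨s, b, rfl⟩ := exists_up y
    rw [ht_up, ht_up]
    rcases adj_up h with ⟨h1, -⟩ | h1
    · rw [h1, log_mul exp_ne_zero (vu_ne t), log_exp]
      omega
    · rw [h1, log_mul exp_ne_zero (vu_ne s), log_exp]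
      omega
  · intro x y z hy hz ly lz
    obtain ⟨t, a, rfl⟩ := exists_up x
    obtain ⟨s, b, rfl⟩ := exists_up y
    obtain ⟨r, c, rfl⟩ := exists_up z
    rw [ht_up, ht_up] at ly lz
    have key : ∀ {s : Kˣ} {b : K}, (Tr v).Adj ((up t a : GL (Fin 2) K) : Vx v) (up s b : GL (Fin 2) K) →
        - log (v (s : K)) < - log (v (t : K)) →
        v (s : K) = exp (1 : ℤ) * v (t : K) ∧ v (b - a) ≤ v (s : K) := by
      intro s b h l
      rcases adj_up h with h1 | h1
      · exact h1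
      · rw [h1, log_mul exp_ne_zero (vu_ne s), log_exp] at l
        omega
    obtain ⟨k1, k2⟩ := key hy ly
    obtain ⟨k3, k4⟩ := key hz lz
    rw [up_eq, k1, k3]
    refine ⟨rfl, ?_⟩
    have e : c - b = (c - a) - (b - a) := by ring
    rw [e]
    refine (v.map_sub _ _).trans (max_le ?_ ?_)
    · rwa [← k3]
    · rwa [← k1]

end Pool.Agent.T2h61.GT
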